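import Pool.Agent.Q277.LC.Kha
import Pool.Agent.Q295.PL.Stm2

/-!
# Project LC2: expected closeness and its exponential tail in all dimensions `d ≥ 2`
(jobs L2-CLT, L2-KHT of helper295)
-/

set_option autoImplicit false

namespace Pool.Agent.Q26.L2

open Finset Equiv Matrix Q292.LC
open Pool.Agent.Q277.LC
open Pool.Agent.Q68.LC (EE_congr EE_const EE_add EE_smul EE_mono EE_succ)

theorem sum_inv (δ : ℝ) (hδ : 0 < δ) (N : ℕ) :
    δ * ∑ s ∈ Finset.range (N + 1), 1 / (1 + (s : ℝ) * δ) ≤ δ + Real.log (1 + N * δ) := by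
  induction N with
  | zero => simp
  | succ N ih =>
    rw [Finset.sum_range_succ, mul_add]
    obtain ⟨a, ha⟩ : ∃ a, a = 1 + (N : ℝ) * δ := ⟨_, rfl⟩
    obtain ⟨b, hb⟩ : ∃ b, b = 1 + ((N + 1 : ℕ) : ℝ) * δ := ⟨_, rfl⟩
    have hab : a = b - δ := by rw [ha, hb]; push_cast; ring
    have ha0 : 0 < a := by
      rw [ha]
      positivity
    have hb0 : 0 < b := by
      rw [hb]
      positivity
    rw [← hb]
    rw [← ha] at ih
    have h1 : Real.log (a / b) ≤ a / b - 1 := Real.log_le_sub_one_of_pos (by positivity)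
    rw [Real.log_div ha0.ne' hb0.ne'] at h1
    have h2 : a / b - 1 = -(δ * (1 / b)) := by
      rw [hab]
      field_simp
      ring
    rw [h2] at h1
    linarith

theorem log_bound (K : ℕ) : Real.log (1 + 2 * K) ≤ (Nat.log 2 K : ℝ) + 2 := by
  have h1 : K < 2 ^ (Nat.log 2 K + 1) := Nat.lt_pow_succ_log_self (by norm_num) K
  have h2 : 1 + 2 * K ≤ 2 ^ (Nat.log 2 K + 2) := by
    have : 2 ^ (Nat.log 2 K + 2) = 2 * 2 ^ (Nat.log 2 K + 1) := by rw [pow_succ]; ring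
    omega
  have h3 : (1 + 2 * K : ℝ) ≤ 2 ^ (Nat.log 2 K + 2) := by exact_mod_cast h2
  have h4 : Real.log (1 + 2 * K) ≤ Real.log (2 ^ (Nat.log 2 K + 2)) :=
    Real.log_le_log (by positivity) h3
  rw [Real.log_pow] at h4
  refine h4.trans ?_
  have h5 : Real.log 2 ≤ 1 := by
    have := Real.log_two_lt_d9
    linarith
  calc ((Nat.log 2 K + 2 : ℕ) : ℝ) * Real.log 2 ≤ ((Nat.log 2 K + 2 : ℕ) : ℝ) * 1 :=
        mul_le_mul_of_nonneg_left h5 (by positivity)
    _ = (Nat.log 2 K : ℝ) + 2 := by push_cast; ring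

theorem clt (hF : Q292.LC.S_FRE) : Q295.PL.S_CLT := by
  intro d hd
  obtain ⟨C, hC1, hC⟩ := hF d (by omega)
  refine ⟨⌈49 ^ d * C * 4⌉₊, ?_, ?_⟩
  · rw [Nat.one_le_ceil_iff]
    positivity
  intro L _ hL K hKL
  obtain ⟨q₀, hq₀⟩ := hC L hL K
  refine ⟨max q₀ 2, ?_⟩
  intro q hq σ hσ δ hδ1 hδ2 x y hxy
  have hqq : q₀ ≤ q := le_trans (le_max_left _ _) hq
  have hq2 : 2 ≤ q := le_trans (le_max_right _ _) hq
  obtain ⟨f1, -, -⟩ := hq₀ q hqq σ hσ δ hδ1 hδ2
  have hqR : (2 : ℝ) ≤ q := by exact_mod_cast hq2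
  have hδ0 : 0 < δ := by
    by_contra h
    push Not at h
    have : δ * q ≤ 0 := mul_nonpos_of_nonpos_of_nonneg h (by linarith)
    linarith
  have hδle : δ ≤ 1 := by nlinarith
  have hn : K * q * ms d L ≤ K * (q * ms d L) := by rw [mul_assoc]
  rw [EE_clo σ (K * q) _ δ hn x y]
  have hterm : ∀ s ∈ Finset.range (K * q), EE (s * ms d L) δ (fun ω =>
      if td (gp (ed ∘ σ) ω (s * ms d L) x) (gp (ed ∘ σ) ω (s * ms d L) y) ≤ 3 then (1 : ℝ)
        else 0) ≤ 49 ^ d * (C * (1 / (1 + (s : ℝ) * δ) + 1 / (L : ℝ) ^ d)) := by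
    intro s hs
    rw [Finset.mem_range] at hs
    have hs0 : (0 : ℝ) ≤ (s : ℝ) * δ := by positivity
    have ha1 : 1 ≤ 1 + (s : ℝ) * δ := by linarith
    have hpow : (1 + (s : ℝ) * δ) ^ (-(d / 2 : ℝ)) ≤ 1 / (1 + (s : ℝ) * δ) := by
      have hd2 : (2 : ℝ) ≤ d := by exact_mod_cast hd
      have h1 : (1 + (s : ℝ) * δ) ^ (-(d / 2 : ℝ)) ≤ (1 + (s : ℝ) * δ) ^ (-(1 : ℝ)) :=
        Real.rpow_le_rpow_of_exponent_le ha1 (by linarith)
      refine le_trans h1 (le_of_eq ?_)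
      rw [Real.rpow_neg (by linarith), one_div, Real.rpow_one]
    have hC0 : 0 ≤ C := by linarith
    have hS : ∀ x y, PP (ed ∘ σ) δ (s * ms d L) x y ≤
        C * (1 / (1 + (s : ℝ) * δ) + 1 / (L : ℝ) ^ d) := by
      intro x y
      refine le_trans (f1 s hs.le x y) ?_
      refine mul_le_mul_of_nonneg_left ?_ hC0
      linarith
    exact close_le (ed ∘ σ) (s * ms d L) δ _ hδ0.le hδle hS (by positivity) x y hxy
  refine le_trans (Finset.sum_le_sum hterm) ?_
  rw [← Finset.mul_sum, ← Finset.mul_sum, Finset.sum_add_distrib, Finset.sum_const,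
    Finset.card_range, nsmul_eq_mul]
  have hLpos : (0 : ℝ) < (L : ℝ) ^ d := by
    have : (0 : ℝ) < L := by exact_mod_cast Nat.pos_of_ne_zero (NeZero.ne L)
    positivity
  have hl0 : (0 : ℝ) ≤ (Nat.log 2 K : ℝ) := Nat.cast_nonneg _
  have hsum : ∑ s ∈ Finset.range (K * q), 1 / (1 + (s : ℝ) * δ) ≤
      1 + q * ((Nat.log 2 K : ℝ) + 2) := by
    have h1 := sum_inv δ hδ0 (K * q)
    have h2 : ∑ s ∈ Finset.range (K * q), 1 / (1 + (s : ℝ) * δ) ≤
        ∑ s ∈ Finset.range (K * q + 1), 1 / (1 + (s : ℝ) * δ) := by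
      rw [Finset.sum_range_succ]
      have : 0 ≤ 1 / (1 + ((K * q : ℕ) : ℝ) * δ) := by positivity
      linarith
    have h3 : Real.log (1 + ((K * q : ℕ) : ℝ) * δ) ≤ Real.log (1 + 2 * K) := by
      refine Real.log_le_log (by positivity) ?_
      have : ((K * q : ℕ) : ℝ) * δ = K * (δ * q) := by push_cast; ring
      rw [this]
      have : (K : ℝ) * (δ * q) ≤ K * 2 := mul_le_mul_of_nonneg_left hδ2 (by positivity)
      linarith
    have h4 := log_bound K
    have h5 : δ * ∑ s ∈ Finset.range (K * q), 1 / (1 + (s : ℝ) * δ) ≤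
        δ * (1 + q * ((Nat.log 2 K : ℝ) + 2)) := by
      have e1 : δ * ∑ s ∈ Finset.range (K * q), 1 / (1 + (s : ℝ) * δ) ≤
          δ * ∑ s ∈ Finset.range (K * q + 1), 1 / (1 + (s : ℝ) * δ) :=
        mul_le_mul_of_nonneg_left h2 hδ0.le
      have e2 : δ * (1 + q * ((Nat.log 2 K : ℝ) + 2)) =
          δ + (δ * q) * ((Nat.log 2 K : ℝ) + 2) := by ring
      have e3 : 1 * ((Nat.log 2 K : ℝ) + 2) ≤ (δ * q) * ((Nat.log 2 K : ℝ) + 2) :=
        mul_le_mul_of_nonneg_right hδ1 (by linarith)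
      rw [e2]
      linarith
    exact le_of_mul_le_mul_left h5 hδ0
  have hKq : ((K * q : ℕ) : ℝ) * (1 / (L : ℝ) ^ d) ≤ q := by
    rw [mul_one_div, div_le_iff₀ hLpos]
    push_cast
    rw [mul_comm]
    refine mul_le_mul_of_nonneg_left ?_ (by positivity)
    exact_mod_cast hKL
  have hfin : ∑ s ∈ Finset.range (K * q), 1 / (1 + (s : ℝ) * δ) +
      ((K * q : ℕ) : ℝ) * (1 / (L : ℝ) ^ d) ≤ 4 * ((1 + (Nat.log 2 K : ℝ)) * q) := by
    have : 0 ≤ (q : ℝ) * (Nat.log 2 K : ℝ) := by positivity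
    nlinarith
  have hceil : 49 ^ d * C * 4 ≤ (⌈49 ^ d * C * 4⌉₊ : ℝ) := Nat.le_ceil _
  calc 49 ^ d * (C * (∑ s ∈ Finset.range (K * q), 1 / (1 + (s : ℝ) * δ) +
        ((K * q : ℕ) : ℝ) * (1 / (L : ℝ) ^ d)))
      ≤ 49 ^ d * (C * (4 * ((1 + (Nat.log 2 K : ℝ)) * q))) := by
        refine mul_le_mul_of_nonneg_left (mul_le_mul_of_nonneg_left hfin (by linarith)) (by positivity)
    _ = (49 ^ d * C * 4) * ((1 + (Nat.log 2 K : ℝ)) * q) := by ring
    _ ≤ (⌈49 ^ d * C * 4⌉₊ : ℝ) * ((1 + (Nat.log 2 K : ℝ)) * q) :=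
        mul_le_mul_of_nonneg_right hceil (by positivity)
    _ = (⌈49 ^ d * C * 4⌉₊ : ℝ) * (1 + (Nat.log 2 K : ℝ)) * q := by ring

theorem kht (hC : Q295.PL.S_CLT) : Q295.PL.S_KHT := by
  classical
  intro d hd
  obtain ⟨C, hC1, hC2⟩ := hC d hd
  refine ⟨4 * C, by omega, ?_⟩
  intro L _ hL K hKL
  obtain ⟨q₀, hq₀⟩ := hC2 L hL K hKL
  refine ⟨max q₀ 2, ?_⟩
  intro q hq σ hσ δ hδ1 hδ2 x y hxy m
  have hqq : q₀ ≤ q := le_trans (le_max_left _ _) hq
  have hq2 : 2 ≤ q := le_trans (le_max_right _ _) hq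
  have hqR : (2 : ℝ) ≤ q := by exact_mod_cast hq2
  have hδ0 : 0 < δ := by
    by_contra h
    push Not at h
    have : δ * q ≤ 0 := mul_nonpos_of_nonpos_of_nonneg h (by linarith)
    linarith
  have hδle : δ ≤ 1 := by nlinarith
  have hn : K * q * ms d L = K * (q * ms d L) := by rw [mul_assoc]
  have hmain := fun x y hxy => hq₀ q hqq σ hσ δ hδ1 hδ2 x y hxy
  rcases Nat.eq_zero_or_pos m with h0 | h0
  · subst h0
    rw [pow_zero]
    have h1 : EE (K * (q * ms d L)) δ (fun ω =>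
        if 4 * C * (1 + Nat.log 2 K) * 0 * q < clo σ (K * q) ω x y then
        (1 : ℝ) else 0) ≤ EE (K * (q * ms d L)) δ (fun _ => 1) := by
      refine EE_mono hδ0.le hδle fun ω => ?_
      split_ifs <;> norm_num
    rw [EE_const] at h1
    convert h1
  obtain ⟨B, hB⟩ : ∃ B : ℕ, B = C * (1 + Nat.log 2 K) * q := ⟨_, rfl⟩
  have hB1 : 1 ≤ B := by
    rw [hB]
    exact Nat.mul_pos (Nat.mul_pos hC1 (by omega)) (by omega)
  have hBR : (B : ℝ) = C * (1 + (Nat.log 2 K : ℝ)) * q := by rw [hB]; push_cast; ring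
  have hmom := kha_mom hσ (K * q) δ B hδ0.le hδle (by positivity) (by
    intro x y hxy
    rw [hn, hBR]
    exact hmain x y hxy) m (K * q) le_rfl (K * (q * ms d L)) hn.le x y hxy
  have hch := choose_lb B m hB1 h0
  have hchp : (0 : ℝ) < ((4 * B * m).choose m : ℝ) := lt_of_lt_of_le (by
    have : (0 : ℝ) < ((2 * B : ℕ) : ℝ) := by exact_mod_cast (by omega : 0 < 2 * B)
    positivity) hch
  have h1 : EE (K * (q * ms d L)) δ (fun ω =>
      if 4 * C * (1 + Nat.log 2 K) * m * q < clo σ (K * q) ω x y then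
      (1 : ℝ) else 0) ≤ EE (K * (q * ms d L)) δ (fun ω =>
        1 / ((4 * B * m).choose m : ℝ) * ((clo σ (K * q) ω x y).choose m : ℝ)) := by
    refine EE_mono hδ0.le hδle fun ω => ?_
    split_ifs with hc
    · rw [one_div_mul_eq_div, one_le_div hchp]
      have h3 : 4 * B * m ≤ clo σ (K * q) ω x y := by
        have : 4 * B * m = 4 * C * (1 + Nat.log 2 K) * m * q := by rw [hB]; ring
        omega
      exact_mod_cast Nat.choose_le_choose m h3
    · positivity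
  have h2 : EE (K * (q * ms d L)) δ (fun ω =>
      if 4 * C * (1 + Nat.log 2 K) * m * q < clo σ (K * q) ω x y then
      (1 : ℝ) else 0) ≤ (1 / 2) ^ m := by
    refine le_trans h1 ?_
    rw [EE_smul]
    calc 1 / ((4 * B * m).choose m : ℝ) * EE (K * (q * ms d L)) δ
          (fun ω => ((clo σ (K * q) ω x y).choose m : ℝ))
        ≤ 1 / ((4 * B * m).choose m : ℝ) * (B : ℝ) ^ m :=
          mul_le_mul_of_nonneg_left hmom (by positivity)
      _ ≤ 1 / ((2 * B : ℕ) : ℝ) ^ m * (B : ℝ) ^ m := by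
          refine mul_le_mul_of_nonneg_right ?_ (by positivity)
          refine one_div_le_one_div_of_le ?_ hch
          have : (0 : ℝ) < ((2 * B : ℕ) : ℝ) := by exact_mod_cast (by omega : 0 < 2 * B)
          positivity
      _ = (1 / 2) ^ m := by
          have hBp : (B : ℝ) ≠ 0 := by
            have : (0 : ℝ) < B := by exact_mod_cast hB1
            exact this.ne'
          rw [one_div_mul_eq_div, ← div_pow]
          congr 1
          push_cast
          field_simp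
  convert h2

end Pool.Agent.Q26.L2
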