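import Pool.Agent.Q297.LC.Pdq
import Pool.Agent.Q295.PL.Stm2

/-!
# Project LC2: two uniform points are in the same cycle, all dimensions `d ≥ 2`
(job L2-PQT of helper295)
-/

set_option autoImplicit false

namespace Pool.Agent.Q26.L2

open Finset Equiv Matrix Q292.LC
open Pool.Agent.Q297.LC
open Pool.Agent.Y998.ST (stirExp nnRate qq stirLaw totalRate)

theorem stir_Qv_nonneg {d L : ℕ} [NeZero L] {t : ℝ} (ht : 0 ≤ t) :
    0 ≤ stirExp (nnRate d L) t (fun g => Qv g) := by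
  have h1 := Pool.Agent.Y998.ST.exp_mono (J := nnRate d L) Pool.Agent.Y998.ST.nn_nonneg
    (t := t) ht (F := fun _ => 0 * (1 : ℝ)) (G := fun g => Qv g)
    (fun g => by simpa using Qv_nonneg g)
  rw [stir_smul, zero_mul] at h1
  exact h1

theorem pqt (hDVT : Q295.PL.S_DVT) (hQLO : Q292.LC.S_QLO) : Q295.PL.S_PQT := by
  intro d hd
  obtain ⟨m₁, L₀, hDVT⟩ := hDVT d hd
  obtain ⟨C₁, hC₁, hQ⟩ := hQLO d (by omega)
  set M := max L₀ 8 with hM
  refine ⟨max (C₁ + 2) (M : ℝ), m₁ + 1, le_trans (by linarith) (le_max_left _ _), ?_⟩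
  intro L _ t hL3 ht1 hlog ht4
  have ht0 : (0 : ℝ) < t := by linarith
  have hts : 0 < t ^ (-(1 / 16) : ℝ) := Real.rpow_pos_of_pos ht0 _
  by_cases hLM : L < M
  · have hM1 : (1 : ℝ) ≤ M := by
      have : 1 ≤ M := by omega
      exact_mod_cast this
    have hLM' : (L : ℝ) ≤ M := by exact_mod_cast hLM.le
    have h1 : t ≤ (M : ℝ) ^ 2 := by
      by_contra hcon
      push Not at hcon
      have h2 : ((M : ℝ) ^ 2) ^ 4 < t ^ 4 := pow_lt_pow_left₀ hcon (by positivity) (by norm_num)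
      have h3 : (L : ℝ) ^ 7 ≤ (M : ℝ) ^ 7 := pow_le_pow_left₀ (by positivity) hLM' 7
      have h4 : (M : ℝ) ^ 7 ≤ (M : ℝ) ^ 8 := pow_le_pow_right₀ hM1 (by norm_num)
      have h5 : ((M : ℝ) ^ 2) ^ 4 = (M : ℝ) ^ 8 := by ring
      rw [h5] at h2
      linarith
    have h2 : t ≤ (M : ℝ) ^ (16 : ℕ) := h1.trans (pow_le_pow_right₀ hM1 (by norm_num))
    have h3 : t ^ ((1 / 16 : ℝ)) ≤ M := by
      calc t ^ ((1 / 16 : ℝ)) ≤ ((M : ℝ) ^ (16 : ℕ)) ^ ((1 / 16 : ℝ)) :=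
            Real.rpow_le_rpow ht0.le h2 (by norm_num)
        _ = M := by
            rw [← Real.rpow_natCast, ← Real.rpow_mul (by positivity)]
            norm_num
    have h4 : 1 ≤ (M : ℝ) * t ^ (-(1 / 16) : ℝ) := by
      rw [Real.rpow_neg ht0.le]
      have h5 : 0 < t ^ ((1 / 16 : ℝ)) := Real.rpow_pos_of_pos ht0 _
      rw [← div_eq_mul_inv, le_div_iff₀ h5, one_mul]
      exact h3
    have h5 : (M : ℝ) * t ^ (-(1 / 16) : ℝ) ≤ max (C₁ + 2) (M : ℝ) * t ^ (-(1 / 16) : ℝ) :=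
      mul_le_mul_of_nonneg_right (le_max_right _ _) hts.le
    have h6 := stir_Qv_nonneg (d := d) (L := L) ht0.le
    linarith
  have hLM' : M ≤ L := not_lt.1 hLM
  have hL8 : 8 ≤ L := (le_max_right _ _).trans hLM'
  have hL8' : (8 : ℝ) ≤ L := by exact_mod_cast hL8
  have hlog2 : 2 ≤ Real.log L := by
    have h1 : Real.log 8 ≤ Real.log L := Real.log_le_log (by norm_num) hL8'
    have h2 : Real.log 8 = 3 * Real.log 2 := by
      rw [show (8 : ℝ) = 2 ^ 3 by norm_num, Real.log_pow]; norm_num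
    have h3 := Real.log_two_gt_d9
    linarith
  have hpow : (Real.log L) ^ m₁ * 2 ≤ (Real.log L) ^ (m₁ + 1) := by
    rw [pow_succ]
    exact mul_le_mul_of_nonneg_left hlog2 (by positivity)
  have hpow1 : 1 ≤ (Real.log L) ^ m₁ := one_le_pow₀ (by linarith)
  set K := ⌊t⌋₊ with hK
  have hKt : (K : ℝ) ≤ t := Nat.floor_le (by linarith)
  have hK1 : 1 ≤ K := Nat.le_floor (by rw [Nat.cast_one]; exact ht1)
  have hK1' : (1 : ℝ) ≤ K := by exact_mod_cast hK1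
  have htK : t < K + 1 := Nat.lt_floor_add_one t
  have ht2K : t ≤ 2 * K := by linarith
  have hlogK : (Real.log L) ^ m₁ ≤ K := by linarith
  have hK4 : K ^ 4 ≤ L ^ 7 := by
    have h1 : (K : ℝ) ^ 4 ≤ (L : ℝ) ^ 7 := by
      refine le_trans ?_ ht4
      exact pow_le_pow_left₀ (by linarith) hKt 4
    exact_mod_cast h1
  have hKp : (0 : ℝ) < K := by linarith
  -- the side of the box
  obtain ⟨y, hy⟩ : ∃ y : ℝ, y = (K : ℝ) ^ ((7 / 16 : ℝ)) := ⟨_, rfl⟩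
  have hy16 : y ^ 16 = (K : ℝ) ^ 7 := by
    rw [hy, ← Real.rpow_natCast, ← Real.rpow_mul hKp.le, ← Real.rpow_natCast]
    norm_num
  have hy1 : 1 ≤ y := by
    rw [hy]
    exact Real.one_le_rpow hK1' (by norm_num)
  set r := ⌊y⌋₊ with hr
  have hry : (r : ℝ) ≤ y := Nat.floor_le (by linarith)
  have hr1 : 1 ≤ r := Nat.le_floor (by rw [Nat.cast_one]; exact hy1)
  have hr1' : (1 : ℝ) ≤ r := by exact_mod_cast hr1
  have hyr : y < r + 1 := Nat.lt_floor_add_one y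
  have hrK : r ^ 16 ≤ K ^ 7 := by
    have : (r : ℝ) ^ 16 ≤ (K : ℝ) ^ 7 := by
      rw [← hy16]
      exact pow_le_pow_left₀ (by linarith) hry 16
    exact_mod_cast this
  have hKr : K ^ 7 ≤ (2 * r) ^ 16 := by
    have : (K : ℝ) ^ 7 ≤ (2 * (r : ℝ)) ^ 16 := by
      rw [← hy16]
      exact pow_le_pow_left₀ (by linarith) (by linarith) 16
    exact_mod_cast this
  have hrL : r ≤ L := by
    by_contra hcon
    push Not at hcon
    have h1 : L ^ 64 < r ^ 64 := Nat.pow_lt_pow_left hcon (by norm_num)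
    have h2 : r ^ 64 ≤ K ^ 28 := by
      calc r ^ 64 = (r ^ 16) ^ 4 := by ring
        _ ≤ (K ^ 7) ^ 4 := Nat.pow_le_pow_left hrK 4
        _ = K ^ 28 := by ring
    have h3 : K ^ 28 ≤ L ^ 49 := by
      calc K ^ 28 = (K ^ 4) ^ 7 := by ring
        _ ≤ (L ^ 7) ^ 7 := Nat.pow_le_pow_left hK4 7
        _ = L ^ 49 := by ring
    have h4 : L ^ 49 ≤ L ^ 64 := Nat.pow_le_pow_right (by omega) (by norm_num)
    omega
  obtain ⟨q₀, hq₀⟩ := hDVT L K r ((le_max_left _ _).trans hLM') hlogK hK4 hrK hKr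
  have hF : ∀ g : Perm (Fin d → ZMod L), |Qb r g - Qv g| ≤ 1 := by
    intro g
    have a1 := Qb_nonneg r g
    have a2 := Qb_le hr1 hrL g
    have a3 := Qv_nonneg g
    have a4 := Qv_le g
    rw [abs_le]; constructor <;> linarith
  have h1 : stirExp (nnRate d L) t (fun g => Qb r g - Qv g) ≤ (K : ℝ) ^ (-(1 / 16) : ℝ) := by
    refine stir_le_of_circuit (by omega) (by omega) hK1 hKt ht2K hF
      ⟨q₀, fun q hq σ hσ δ h1 h2 => ?_⟩
    exact hq₀ q hq σ hσ δ h1 h2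
  rw [stir_sub] at h1
  have h2 := hQ L (by omega) t r (by linarith) hr1 hrL
  have h3 : (K : ℝ) ^ (-(1 / 16) : ℝ) ≤ 2 * t ^ (-(1 / 16) : ℝ) := by
    have e1 : (K : ℝ) ^ (-(1 / 16) : ℝ) ≤ (t / 2) ^ (-(1 / 16) : ℝ) :=
      Real.rpow_le_rpow_of_nonpos (by linarith) (by linarith) (by norm_num)
    have e2 : (t / 2) ^ (-(1 / 16) : ℝ) = (2 : ℝ) ^ ((1 / 16 : ℝ)) * t ^ (-(1 / 16) : ℝ) := by
      rw [Real.div_rpow (by linarith) (by norm_num), Real.rpow_neg (by norm_num : (0 : ℝ) ≤ 2)]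
      rw [div_inv_eq_mul]; ring
    have e3 : (2 : ℝ) ^ ((1 / 16 : ℝ)) ≤ 2 := by
      calc (2 : ℝ) ^ ((1 / 16 : ℝ)) ≤ (2 : ℝ) ^ (1 : ℝ) :=
            Real.rpow_le_rpow_of_exponent_le (by norm_num) (by norm_num)
        _ = 2 := Real.rpow_one 2
    rw [e2] at e1
    exact e1.trans (mul_le_mul_of_nonneg_right e3 hts.le)
  have h4 : C₁ * r / Real.sqrt t ≤ C₁ * t ^ (-(1 / 16) : ℝ) := by
    rw [mul_div_assoc]
    refine mul_le_mul_of_nonneg_left ?_ (by linarith)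
    have hsq : 0 < Real.sqrt t := Real.sqrt_pos.2 ht0
    rw [div_le_iff₀ hsq, Real.sqrt_eq_rpow, ← Real.rpow_add ht0]
    refine hry.trans ?_
    rw [hy]
    have e1 : (K : ℝ) ^ ((7 / 16 : ℝ)) ≤ t ^ ((7 / 16 : ℝ)) :=
      Real.rpow_le_rpow hKp.le hKt (by norm_num)
    refine e1.trans (le_of_eq ?_)
    norm_num
  have h5 : (C₁ + 2) * t ^ (-(1 / 16) : ℝ) ≤ max (C₁ + 2) (M : ℝ) * t ^ (-(1 / 16) : ℝ) :=
    mul_le_mul_of_nonneg_right (le_max_left _ _) hts.le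
  have h6 : (C₁ + 2) * t ^ (-(1 / 16) : ℝ) = C₁ * t ^ (-(1 / 16) : ℝ) +
    2 * t ^ (-(1 / 16) : ℝ) := by ring
  linarith

end Pool.Agent.Q26.L2
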